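import Mathlib

set_option autoImplicit false

namespace Pool.Agent.Results.MP_31d4f2_co.Counter

/-- positions: two terminals (true is the Left terminal) and nodes with n ≥ 1 options -/
inductive Pos : Type
  | term (b : Bool) : Pos
  | node (n : ℕ) (h : 0 < n) (f : Fin n → Pos) : Pos

open Pos

/-- disjunctive sum of a terminal position and an arbitrary position -/
def addT (a : Bool) : Pos → Pos
  | term b => term (a == b)
  | node m h g => node m h fun j => addT a (g j)

/-- disjunctive sum of a node, whose i-th option adds as A i, and an arbitrary position -/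
def addN (n : ℕ) (h : 0 < n) (A : Fin n → Pos → Pos) : Pos → Pos
  | term b => node n h fun i => A i (term b)
  | node m h' g => node (n + m) (Nat.add_pos_left h m)
      (Fin.append (fun i => A i (node m h' g)) fun j => addN n h A (g j))

/-- disjunctive sum -/
def add : Pos → Pos → Pos
  | term a => addT a
  | node n h f => addN n h fun i => add (f i)

/-- Left wins the position; the flag is true when Left moves first -/
def LW : Pos → Bool → Prop
  | term b, _ => b = true
  | node _ _ f, true => ∃ i, LW (f i) false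
  | node _ _ f, false => ∀ i, LW (f i) true

/-- equivalence: the same outcome in every sum -/
def Eqv (G H : Pos) : Prop := ∀ (X : Pos) (t : Bool), LW (add G X) t ↔ LW (add H X) t

/-- the position with the single option G -/
def sing (G : Pos) : Pos := node 1 Nat.one_pos fun _ => G

/-- G has an option equivalent to H -/
def HasOpt (G H : Pos) : Prop := ∃ n h f i, G = node n h f ∧ Eqv (f i) H

/-- isomorphism of positions -/
def Iso : Pos → Pos → Prop
  | term a, term b => a = b
  | node _ _ f, node _ _ g => (∀ i, ∃ j, Iso (f i) (g j)) ∧ ∀ j, ∃ i, Iso (f i) (g j)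
  | _, _ => False

/-- one simplification step -/
inductive Step : Pos → Pos → Prop
  | s1 (b : Bool) (n : ℕ) (h : 0 < n) (f : Fin n → Pos) (i : Fin n) :
      Eqv (f i) (sing (term b)) → (∀ j, HasOpt (f j) (term b)) → Step (node n h f) (term b)
  | s2 (n : ℕ) (h : 0 < n) (f : Fin n → Pos) (i : Fin n) :
      2 ≤ n → (∀ j, j ≠ i → HasOpt (f j) (sing (f i))) → Step (node n h f) (sing (f i))
  | sub (n : ℕ) (h : 0 < n) (f : Fin n → Pos) (i : Fin n) (P : Pos) :
      Step (f i) P → Step (node n h f) (node n h (Function.update f i P))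

/-- no step applies -/
def Reduced (G : Pos) : Prop := ∀ P, ¬ Step G P

def W (s : Bool) (G : Pos) (first : Bool) : Prop :=
  if s then LW G first else ¬ LW G (!first)

lemma W_node (s : Bool) (n : ℕ) (h : 0 < n) (f : Fin n → Pos) :
    W s (node n h f) true ↔ ∃ i, W s (f i) false := by
  cases s <;> simp [W, LW]

lemma W_not (s : Bool) (G : Pos) : W s G false ↔ ¬ W (!s) G true := by
  cases s <;> simp [W]

lemma eqv_of_W {G H : Pos} (h : ∀ X s, W s (add G X) true ↔ W s (add H X) true) : Eqv G H := by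
  intro X t
  cases t
  · have := h X false
    simp only [W, Bool.false_eq_true, if_false, Bool.not_true] at this
    exact not_iff_not.1 this
  · simpa [W] using h X true

lemma W_of_eqv {G H : Pos} (h : Eqv G H) (X : Pos) (s t : Bool) :
    W s (add G X) t ↔ W s (add H X) t := by
  cases s <;> simp [W, h X]

lemma W_add (s : Bool) (n : ℕ) (h : 0 < n) (f : Fin n → Pos) (X : Pos) :
    W s (add (node n h f) X) true ↔ (∃ i, W s (add (f i) X) false) ∨
      ∃ m h' g j, X = node m h' g ∧ W s (add (node n h f) (g j)) false := by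
  cases X with
  | term b => simp [add, addN, W_node]
  | node m h' g =>
    simp only [add, addN, W_node]
    constructor
    · rintro ⟨k, hk⟩
      induction k using Fin.addCases with
      | left i => exact Or.inl ⟨i, by simpa using hk⟩
      | right j => exact Or.inr ⟨m, h', g, j, rfl, by simpa using hk⟩
    · rintro (⟨i, hi⟩ | ⟨m', h'', g', j, e, hj⟩)
      · exact ⟨Fin.castAdd m i, by simpa using hi⟩
      · cases e
        exact ⟨Fin.natAdd n j, by simpa using hj⟩

lemma rev (n m : ℕ) (hn : 0 < n) (hm : 0 < m) (f : Fin n → Pos) (g : Fin m → Pos)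
    (h1 : ∀ j, ∃ i, Eqv (f i) (g j))
    (h2 : ∀ i, (∃ j, Eqv (f i) (g j)) ∨
      ∃ n' h' f' i', f i = node n' h' f' ∧ f' i' = node m hm g) :
    Eqv (node n hn f) (node m hm g) := by
  apply eqv_of_W
  have main : ∀ X : Pos, (∀ k hk x j, X = node k hk x → ∀ s, W s (add (node n hn f) (x j)) true ↔
      W s (add (node m hm g) (x j)) true) →
      ∀ s, W s (add (node n hn f) X) true ↔ W s (add (node m hm g) X) true := by
    intro X ih s
    constructor
    · intro h
      rcases (W_add _ _ _ _ _).1 h with ⟨i, hi⟩ | ⟨k, hk, x, j, e, hj⟩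
      · rcases h2 i with ⟨j, hj⟩ | ⟨n', h', f', i', e1, e2⟩
        · exact (W_add _ _ _ _ _).2 (Or.inl ⟨j, (W_of_eqv hj _ _ _).1 hi⟩)
        · rw [e1, W_not, W_add] at hi
          by_contra hc
          apply hi
          refine Or.inl ⟨i', ?_⟩
          rw [W_not, e2, Bool.not_not]
          exact hc
      · refine (W_add _ _ _ _ _).2 (Or.inr ⟨k, hk, x, j, e, ?_⟩)
        rw [W_not] at hj ⊢
        rwa [← ih k hk x j e]
    · intro h
      rcases (W_add _ _ _ _ _).1 h with ⟨j, hj⟩ | ⟨k, hk, x, j, e, hj⟩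
      · obtain ⟨i, hi⟩ := h1 j
        exact (W_add _ _ _ _ _).2 (Or.inl ⟨i, (W_of_eqv hi _ _ _).2 hj⟩)
      · refine (W_add _ _ _ _ _).2 (Or.inr ⟨k, hk, x, j, e, ?_⟩)
        rw [W_not] at hj ⊢
        rwa [ih k hk x j e]
  intro X
  induction X with
  | term b => exact main _ fun k hk x j e => by cases e
  | node k hk x ih =>
    refine main _ fun k' hk' x' j e => ?_
    cases e
    exact ih j

lemma erefl (G : Pos) : Eqv G G := fun _ _ => Iff.rfl

lemma esymm {G H : Pos} (h : Eqv G H) : Eqv H G := fun X t => (h X t).symm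

lemma sing_congr {A B : Pos} (h : Eqv A B) : Eqv (sing A) (sing B) :=
  rev _ _ _ _ _ _ (fun _ => ⟨0, h⟩) fun _ => Or.inl ⟨0, h⟩

def pL : Pos := term true
def pR : Pos := term false
def pH : Pos := node 2 (by omega) ![pL, pR]
def pK : Pos := node 3 (by omega) ![pL, pR, pH]
def p2 : Pos := node 3 (by omega) ![pL, pR, sing pH]
def p1 : Pos := node 4 (by omega) ![pL, pR, sing pH, pK]
def pG : Pos := node 2 (by omega) ![p1, p2]

lemma e2 : Eqv p2 pH := by
  refine rev _ _ _ _ _ _ (fun j => ?_) fun i => ?_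
  · fin_cases j
    exacts [⟨0, erefl _⟩, ⟨1, erefl _⟩]
  · fin_cases i
    exacts [Or.inl ⟨0, erefl _⟩, Or.inl ⟨1, erefl _⟩, Or.inr ⟨_, _, _, 0, rfl, rfl⟩]

lemma e1 : Eqv p1 pH := by
  refine rev _ _ _ _ _ _ (fun j => ?_) fun i => ?_
  · fin_cases j
    exacts [⟨0, erefl _⟩, ⟨1, erefl _⟩]
  · fin_cases i
    exacts [Or.inl ⟨0, erefl _⟩, Or.inl ⟨1, erefl _⟩, Or.inr ⟨_, _, _, 0, rfl, rfl⟩,
      Or.inr ⟨_, _, _, 2, rfl, rfl⟩]

lemma red_term (b : Bool) : Reduced (term b) := fun _ h => by cases h

lemma not_opt (b : Bool) (H : Pos) : ¬ HasOpt (term b) H := by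
  rintro ⟨_, _, _, _, e, _⟩; cases e

lemma red_both (n : ℕ) (h : 0 < n) (f : Fin n → Pos) (a b : Fin n) (ha : f a = pL)
    (hb : f b = pR) (hr : ∀ i, Reduced (f i)) : Reduced (node n h f) := by
  intro P hP
  cases hP with
  | s1 c _ _ _ i _ h2 => exact not_opt _ _ (ha ▸ h2 a)
  | s2 _ _ _ i _ h2 =>
    by_cases e : a = i
    · refine not_opt _ _ (hb ▸ h2 b ?_)
      rintro rfl
      rw [e, hb] at ha
      cases ha
    · exact not_opt _ _ (ha ▸ h2 a e)
  | sub _ _ _ i Q h2 => exact hr i Q h2

lemma red_sing (n : ℕ) (h : 0 < n) (f : Fin n → Pos) (a b : Fin n) (ha : f a = pL)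
    (hb : f b = pR) (hr : ∀ i, Reduced (f i)) : Reduced (sing (node n h f)) := by
  intro P hP
  cases hP with
  | s1 c _ _ _ i h1 _ =>
    cases c
    · have := (h1 pL true).1 ⟨a, by show LW (add (f a) pL) false; rw [ha]; rfl⟩
      obtain ⟨_, h3⟩ := this
      cases h3
    · have := (h1 pL false).2 fun _ => rfl
      have h3 : LW (add (f b) pL) true := this b
      rw [hb] at h3
      cases h3
  | s2 _ _ _ i h1 _ => omega
  | sub _ _ _ i Q h2 => exact red_both n h f a b ha hb hr Q h2

lemma rH : ∀ i, Reduced (![pL, pR] i) := fun i => by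
  fin_cases i <;> exact red_term _

lemma rsH : Reduced (sing pH) := red_sing _ _ _ 0 1 rfl rfl rH

lemma rK : Reduced pK := red_both _ _ _ 0 1 rfl rfl fun i => by
  fin_cases i
  exacts [red_term _, red_term _, red_both _ _ _ 0 1 rfl rfl rH]

theorem result : ∃ G A B : Pos, Relation.ReflTransGen Step G A ∧ Relation.ReflTransGen Step G B ∧
    Reduced A ∧ Reduced B ∧ ¬ Iso A B := by
  refine ⟨pG, sing p1, sing p2, .single (Step.s2 _ _ _ 0 le_rfl fun j hj => ?_),
    .single (Step.s2 _ _ _ 1 le_rfl fun j hj => ?_), red_sing _ _ _ 0 1 rfl rfl fun i => ?_,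
    red_sing _ _ _ 0 1 rfl rfl fun i => ?_, ?_⟩
  · fin_cases j
    · exact absurd rfl hj
    · exact ⟨_, _, _, 2, rfl, sing_congr (esymm e1)⟩
  · fin_cases j
    · exact ⟨_, _, _, 2, rfl, sing_congr (esymm e2)⟩
    · exact absurd rfl hj
  · fin_cases i
    exacts [red_term _, red_term _, rsH, rK]
  · fin_cases i
    exacts [red_term _, red_term _, rsH]
  · rintro ⟨h, -⟩
    obtain ⟨_, h, -⟩ := h 0
    obtain ⟨j, hj⟩ := h 3
    fin_cases j
    · exact hj
    · exact hj
    · obtain ⟨h, -⟩ := hj
      obtain ⟨_, h⟩ := h 0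
      exact h

end Pool.Agent.Results.MP_31d4f2_co.Counter
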